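import Pool.Agent.T9h69.CF.Main

set_option autoImplicit false

open scoped Manifold ContDiff Topology Pointwise
open Set Filter

namespace Pool.Agent.Results.MP_5c499f_an.CommonFoliationPinching

open Pool.Agent.H721R2 Pool.Agent.H789R2.AN Pool.Agent.TH289.K Pool.Agent.N234.CP
open Pool.Agent.TH289 (Asym)

/-- **Pinching shared by two Anosov diffeomorphisms with the same foliations.**
Let `f` and `h` be `C¹` Anosov diffeomorphisms of a closed connected manifold `M` with the same
stable sets and the same unstable sets (nothing else is assumed about the pair: `f` and `h` need not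
commute, be homotopic or be close).

(1) Suppose that, in the large,
* `h` contracts the stable sets at the rate `a` at least and `h⁻¹` expands them at the rate `S ≥ a`
  at most (or the topological entropy of `h` is less than `S + (dim Eˢ - 1) a`),
* `f⁻¹` contracts the unstable sets at the rate `b` at least and `f` expands them at the rate
  `U ≥ b` at most (or the topological entropy of `f` is less than `U + (dim Eᵘ - 1) b`),
* `f` contracts the stable sets at the rate `a'` at least and `h⁻¹` contracts the unstable sets at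
  the rate `b'` at least.
If `(S - a) (U - b) < a' b'`, then `f` is topologically transitive, its periodic points are dense,
`f` has global product structure, `M` is covered by `ℝⁿ`, `n = dim M`, and `π₁(M)` has polynomial
growth.

(2) The same holds if `‖Dhⁿ v‖ ≤ C e^(-s n) ‖v‖`, `‖Dfⁿ v‖ ≤ C e^(-t n) ‖v‖` on `Eˢ`,
`‖Df⁻ⁿ v‖ ≤ C e^(-u n) ‖v‖`, `‖Dh⁻ⁿ v‖ ≤ C e^(-w n) ‖v‖` on `Eᵘ`, the topological entropies of `f`
and `h` are at most `kf` and `kh`, and `(kh - s dim Eˢ) (kf - u dim Eᵘ) < t w`. -/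
theorem result (E : Type*) [NormedAddCommGroup E] [NormedSpace ℝ E] [FiniteDimensional ℝ E]
    (M : Type*) [TopologicalSpace M] [T2Space M] [CompactSpace M] [ConnectedSpace M]
    [ChartedSpace E M] [IsManifold 𝓘(ℝ, E) ∞ M] (f h : Diffeomorph 𝓘(ℝ, E) 𝓘(ℝ, E) M M 1)
    (Es Eu Es' Eu' : ∀ x : M, Submodule ℝ (TangentSpace 𝓘(ℝ, E) x))
    (hf : IsAnosov f Es Eu) (hh : IsAnosov h Es' Eu')
    (hs : ∀ x y, Asym f x y ↔ Asym h x y) (hu : ∀ x y, Asym f.symm x y ↔ Asym h.symm x y)
    (ds du : ℕ) (hds : ∀ x, Module.finrank ℝ (Es' x) = ds)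
    (hdu : ∀ x, Module.finrank ℝ (Eu x) = du)
    (hyp : (∃ a S a' b b' U : ℝ, 0 < a ∧ a ≤ S ∧ 0 < b ∧ b ≤ U ∧ 0 < a' ∧ 0 < b' ∧
        CoarseContracts h a ∧
        (CoarseExpands h.toHomeomorph S ∨ topEntropy h < ((S + (ds - 1) * a : ℝ) : EReal)) ∧
        CoarseContracts f.symm b ∧
        (CoarseExpands f.toHomeomorph.symm U ∨
          topEntropy f < ((U + (du - 1) * b : ℝ) : EReal)) ∧
        CoarseContracts f a' ∧ CoarseContracts h.symm b' ∧ (S - a) * (U - b) < a' * b') ∨
      ∃ s t u w kf kh : ℝ, 0 < s ∧ 0 < t ∧ 0 < u ∧ 0 < w ∧ ContractsAt h Es' s ∧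
        ContractsAt f Es t ∧ ContractsAt f.symm Eu u ∧ ContractsAt h.symm Eu' w ∧
        topEntropy f ≤ (kf : EReal) ∧ topEntropy h ≤ (kh : EReal) ∧
        (kh - ds * s) * (kf - du * u) < t * w) :
    TopTransitive f ∧ Dense (Function.periodicPts f) ∧ GPS f.toHomeomorph ∧
      (∃ q : E → M, IsCoveringMap q ∧ Function.Surjective q) ∧
      ∃ d : ℕ, ∀ (x : M) (G : Set (FundamentalGroup M x)), G.Finite →
        ∃ C : ℕ, ∀ n : ℕ, (G ^ n).ncard ≤ C * (n + 1) ^ d := by
  have hf' := Pool.Agent.W740.TU.anosov_symm f Es Eu hf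
  rcases hyp with ⟨a, S, a', b, b', U, ha, haS, hb, hbU, ha', hb', h1, h2, h3, h4, h5, h6, hlt⟩ |
    ⟨s, t, u, w, kf, kh, s0, t0, u0, w0, h1, h2, h3, h4, h5, h6, hlt⟩
  · have h2' : CoarseExpands h.toHomeomorph S := by
      rcases h2 with h2 | h2
      · exact h2
      · exact coarseExpands_of_entropy h Es' Eu' hh ds hds a S ha (ha.trans_le haS) h1 (Or.inl h2)
    have h4' : CoarseExpands f.toHomeomorph.symm U := by
      rcases h4 with h4 | h4
      · exact h4
      · exact coarseExpands_of_entropy f.symm Eu Es hf' du hdu b U hb (hb.trans_le hbU) h3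
          (Or.inr h4)
    exact Pool.Agent.T9h69.CF.pair_pinching f h Es Eu Es' Eu' hf hh hs hu a S a' b b' U ha haS hb
      hbU ha' hb' h1 h2' h3 h4' h5 h6 hlt
  · refine Pool.Agent.T9h69.CF.pair_entropy f h Es Eu Es' Eu' hf hh hs hu ds du hds hdu s u t w kf
      kh s0 u0 t0 w0 h1 h3 h2 h4 h5 h6 ?_
    have tw : 0 < t * w := mul_pos t0 w0
    rcases le_or_gt (kh - ds * s) 0 with hx | hx
    · rw [max_eq_left hx, zero_mul]; exact tw
    rcases le_or_gt (kf - du * u) 0 with hy | hy
    · rw [max_eq_left hy, mul_zero]; exact tw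
    rwa [max_eq_right hx.le, max_eq_right hy.le]

end Pool.Agent.Results.MP_5c499f_an.CommonFoliationPinching
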