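import Pool.Agent.T9h69.CT.Main

set_option autoImplicit false

open scoped Manifold ContDiff Topology
open Set Filter

namespace Pool.Agent.Results.MP_5c499f_an.FactorsOfToralMaps

open Pool.Agent.H789R2.AN Pool.Agent.T9h69.CT

/-- **Anosov diffeomorphisms that are factors of affine toral maps.**
Let `M` be a closed connected manifold (of any dimension).  A `C¹` Anosov diffeomorphism `f` of `M`
is topologically conjugate to a hyperbolic infra-toral automorphism (`InfraTor f`: `M` is the
quotient of a torus `𝕋ᵏ` by a finite group of affine automorphisms acting freely, and `f` is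
induced by a matrix `B ∈ GL(k, ℤ)` without eigenvalues of modulus one) if and only if some power
`fⁿ`, `n ≥ 1`, is a topological factor of SOME affine endomorphism `x ↦ A x + b` of SOME torus
`𝕋ᵐ` (`ToralFactor`: there is a continuous surjection `h : 𝕋ᵐ → M` with
`fⁿ (h x) = h (A x + b)`).  The integer matrix `A` is arbitrary (it may be singular, and may have
eigenvalues of modulus one), the dimension `m` is arbitrary, and nothing is assumed on the fibres
of `h`.

The same holds for every expansive homeomorphism `g` of a closed connected topological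
manifold. -/
theorem result (E : Type*) [NormedAddCommGroup E] [NormedSpace ℝ E] [FiniteDimensional ℝ E]
    (M : Type*) [TopologicalSpace M] [T2Space M] [CompactSpace M] [ConnectedSpace M]
    [ChartedSpace E M] :
    (∀ [IsManifold 𝓘(ℝ, E) ∞ M] (f : Diffeomorph 𝓘(ℝ, E) 𝓘(ℝ, E) M M 1)
      (Es Eu : ∀ x : M, Submodule ℝ (TangentSpace 𝓘(ℝ, E) x)), IsAnosov f Es Eu →
      ((∃ n : ℕ, 1 ≤ n ∧ ToralFactor f^[n]) ↔ InfraTor f)) ∧
    ∀ g : M ≃ₜ M, Pool.Agent.TH289.K.Expansive g →
      ((∃ n : ℕ, 1 ≤ n ∧ ToralFactor g^[n]) ↔ InfraTor g) :=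
  ⟨fun f Es Eu hf => man_iff (E := E) f.toHomeomorph
    (Pool.Agent.TH289.L.expansive_of_anosov f Es Eu hf), fun g hg => man_iff (E := E) g hg⟩

end Pool.Agent.Results.MP_5c499f_an.FactorsOfToralMaps
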