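import Pool.Agent.T9h69.CG.Main

set_option autoImplicit false

open scoped Manifold ContDiff Topology Pointwise
open Set Filter

namespace Pool.Agent.Results.MP_5c499f_an.FoliationPreservingMaps

open Pool.Agent.H721R2 Pool.Agent.H789R2.AN Pool.Agent.TH289.K Pool.Agent.N234.CP
open Pool.Agent.TH289 (Asym)
open Pool.Agent.T9h69.CG

/-- **Anosov diffeomorphisms whose foliations are preserved by a sequence of slowly expanding
homeomorphisms.**
Let `f` be a `C¹` Anosov diffeomorphism of a closed connected manifold `M` which, in the large,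
contracts its stable sets at the exponential rate `s` at least and whose inverse contracts the
unstable sets at the rate `u` at least.  Let `φ₀, φ₁, φ₂, …` be homeomorphisms of `M` such that

* each `φₖ` permutes the stable sets of `f` and permutes the unstable sets of `f` (the `φₖ` need not
  commute with `f` or with each other, and nothing is assumed about their dynamics);
* in the large, the `φₖ` expand the stable sets at a rate `S < s` at most, and the compositions
  `fᵏ ∘ φₖ` expand the unstable sets at a rate `U < u` at most (`ExpandsBy`).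

Then `f` is topologically transitive, its periodic points are dense, `f` has global product
structure, `M` is covered by `ℝⁿ`, `n = dim M`, and `π₁(M)` has polynomial growth.

Examples.  (a) `φₖ = a⁻ᵏ` for a homeomorphism `a` which commutes with `f`: it is enough that `a⁻¹`
expands the stable sets at a rate `S < s` and `a⁻¹ f` expands the unstable sets at a rate `U < u`; no
hyperbolicity of `a` is needed.  (b) If `f⁻¹` expands the stable sets at the rate `S'` at most, `f`
expands the unstable sets at the rate `U'` at most and `s / S' + u / U' > 1` (coarse Brin-Manning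
pinching), then one can take `φₖ = f^(-m)`, `m = ⌊θ k⌋`, for some `0 < θ < 1`.  (c) `φₖ = h⁻ᵏ` for an
Anosov diffeomorphism `h` with the same foliations as `f`. -/
theorem result (E : Type*) [NormedAddCommGroup E] [NormedSpace ℝ E] [FiniteDimensional ℝ E]
    (M : Type*) [TopologicalSpace M] [T2Space M] [CompactSpace M] [ConnectedSpace M]
    [ChartedSpace E M] [IsManifold 𝓘(ℝ, E) ∞ M] (f : Diffeomorph 𝓘(ℝ, E) 𝓘(ℝ, E) M M 1)
    (Es Eu : ∀ x : M, Submodule ℝ (TangentSpace 𝓘(ℝ, E) x)) (hf : IsAnosov f Es Eu)
    (φ : ℕ → M ≃ₜ M) (hφs : ∀ k x y, Asym f (φ k x) (φ k y) ↔ Asym f x y)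
    (hφu : ∀ k x y, Asym f.symm (φ k x) (φ k y) ↔ Asym f.symm x y)
    (s S u U : ℝ) (hs : 0 < s) (hS : S < s) (hu : 0 < u) (hU : U < u)
    (h1 : CoarseContracts f s) (h2 : CoarseContracts f.symm u)
    (h3 : ExpandsBy f (fun k => φ k) S) (h4 : ExpandsBy f.symm (fun k x => f^[k] (φ k x)) U) :
    TopTransitive f ∧ Dense (Function.periodicPts f) ∧ GPS f.toHomeomorph ∧
      (∃ q : E → M, IsCoveringMap q ∧ Function.Surjective q) ∧
      ∃ d : ℕ, ∀ (x : M) (G : Set (FundamentalGroup M x)), G.Finite →
        ∃ C : ℕ, ∀ n : ℕ, (G ^ n).ncard ≤ C * (n + 1) ^ d :=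
  cent_pinching f Es Eu hf φ hφs hφu s S u U hs hS hu hU h1 h2 h3 h4

end Pool.Agent.Results.MP_5c499f_an.FoliationPreservingMaps
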