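import Pool.Agent.T9h69.CU.Main

set_option autoImplicit false

open scoped Manifold ContDiff Topology Pointwise
open Set Filter

namespace Pool.Agent.Results.MP_5c499f_an.UndistortedUnstableLeaves

open Pool.Agent.H721R2 Pool.Agent.H789R2.AN Pool.Agent.TH289.K Pool.Agent.N234.CP
open Pool.Agent.TH289 (Asym)
open Pool.Agent.T9h69.CG Pool.Agent.T9h69.CU

/-- **Anosov diffeomorphisms with undistorted unstable leaves.**
Let `f` be a `C¹` Anosov diffeomorphism of a closed connected manifold `M` whose unstable leaves are
undistorted with the constant `a` (`Undistorted f⁻¹ a`): the end points of an unstable path which is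
homotopic, with fixed end points, to a path with `N` small pieces are close to each other after `n`
iterations of `f⁻¹`, `n ≥ a log N + C`.  (For instance, if the distances in the unstable leaves are at
most `C dᴰ`, where `d` is the distance in the universal cover, and `f⁻¹` contracts the unstable leaves
at the rate `u`, then this holds with `a = D / u`; `D = 1` for quasi-isometric unstable leaves.)
Suppose that `f` contracts the stable sets at the exponential rate `s` at least, in the large, and
that one of the following holds:

(1) `f⁻¹` expands the stable sets at a rate `S` at most, in the large, and `a (S - s) < 1` (so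
`S < s + u` is enough if the unstable leaves are quasi-isometric in the universal cover); nothing else
is assumed about the expansion of the unstable leaves;

(2) `f⁻¹` expands the stable sets at a rate `S` at most, `f` expands the unstable sets at a rate `U` at
most, in the large, and `a U (S - s) < S + U`;

(3) there are homeomorphisms `φ₀, φ₁, …` of `M` which permute the stable sets and permute the unstable
sets of `f`, such that the `φₖ` expand the stable sets at a rate `S < s + 1 / a` at most and the
`fᵏ ∘ φₖ` expand the unstable sets at a rate `U < 1 / a` at most, in the large.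

Then `f` is topologically transitive, its periodic points are dense, `f` has global product
structure, `M` is covered by `ℝⁿ`, `n = dim M`, and `π₁(M)` has polynomial growth. -/
theorem result (E : Type*) [NormedAddCommGroup E] [NormedSpace ℝ E] [FiniteDimensional ℝ E]
    (M : Type*) [TopologicalSpace M] [T2Space M] [CompactSpace M] [ConnectedSpace M]
    [ChartedSpace E M] [IsManifold 𝓘(ℝ, E) ∞ M] (f : Diffeomorph 𝓘(ℝ, E) 𝓘(ℝ, E) M M 1)
    (Es Eu : ∀ x : M, Submodule ℝ (TangentSpace 𝓘(ℝ, E) x)) (hf : IsAnosov f Es Eu)
    (a s : ℝ) (ha : 0 < a) (hs : 0 < s) (h1 : CoarseContracts f s)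
    (h2 : Undistorted f.toHomeomorph.symm a)
    (h3 : (∃ S : ℝ, CoarseExpands f.toHomeomorph S ∧ a * (S - s) < 1) ∨
      (∃ S U : ℝ, 0 < S ∧ 0 < U ∧ CoarseExpands f.toHomeomorph S ∧
        CoarseExpands f.toHomeomorph.symm U ∧ a * U * (S - s) < S + U) ∨
      ∃ (φ : ℕ → M ≃ₜ M) (S U : ℝ), (∀ k x y, Asym f (φ k x) (φ k y) ↔ Asym f x y) ∧
        (∀ k x y, Asym f.symm (φ k x) (φ k y) ↔ Asym f.symm x y) ∧
        ExpandsBy f (fun k => φ k) S ∧ ExpandsBy f.symm (fun k x => f^[k] (φ k x)) U ∧
        a * (S - s) < 1 ∧ a * U < 1) :
    TopTransitive f ∧ Dense (Function.periodicPts f) ∧ GPS f.toHomeomorph ∧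
      (∃ q : E → M, IsCoveringMap q ∧ Function.Surjective q) ∧
      ∃ d : ℕ, ∀ (x : M) (G : Set (FundamentalGroup M x)), G.Finite →
        ∃ C : ℕ, ∀ n : ℕ, (G ^ n).ncard ≤ C * (n + 1) ^ d :=
  undist_main f Es Eu hf a s ha hs h1 h2 h3

end Pool.Agent.Results.MP_5c499f_an.UndistortedUnstableLeaves
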